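import Pool.Agent.H37.CNL.Stmts
import Pool.Agent.H14.CND.TOT

/-!
Board `cnl`, row VHY: an Artin-Schreier generator for a character of `M` with kernel `B`, over an arbitrary base field
-/

set_option autoImplicit false

namespace Pool.CND

open Finset

namespace VHYaux

variable {k L G : Type} [Field k] [Field L] [Algebra k L] [Group G]

/-- the trace is not zero -/
theorem trace_ne (ρ : G →* (L ≃ₐ[k] L)) (hinj : Function.Injective ρ) (M : Subgroup G)
    [Fintype M] : ∃ θ : L, ∑ m : M, ρ m θ ≠ 0 := by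
  by_contra hcon
  push Not at hcon
  have hli := linearIndependent_monoidHom L L
  have hi : Function.Injective (fun m : M => ((ρ m : L ≃ₐ[k] L) : L →* L)) := by
    intro a b hab
    have h1 : ρ a = ρ b := by
      apply AlgEquiv.ext
      intro x
      exact DFunLike.congr_fun hab x
    exact Subtype.ext (hinj h1)
  have h2 := hli.comp _ hi
  rw [Fintype.linearIndependent_iff] at h2
  have h3 := h2 (fun _ => 1) (by
    funext x
    have := hcon x
    simp only [Function.comp_apply, one_smul, Finset.sum_apply, Pi.zero_apply]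
    exact this) 1
  exact one_ne_zero h3

/-- additive Hilbert 90 for a character -/
theorem hil (ρ : G →* (L ≃ₐ[k] L)) (hinj : Function.Injective ρ) (M : Subgroup G) [Fintype M]
    (χ : G → k) (hχ : ∀ a ∈ M, ∀ b ∈ M, χ (a * b) = χ a + χ b) :
    ∃ y : L, ∀ a ∈ M, ρ a y = y + algebraMap k L (χ a) := by
  obtain ⟨θ, hθ⟩ := trace_ne ρ hinj M
  obtain ⟨T, hT⟩ : ∃ T : L, T = ∑ m : M, ρ m θ := ⟨_, rfl⟩
  rw [← hT] at hθ
  have shift : ∀ (a : M) (f : M → L), ∑ m : M, f (a * m) = ∑ m : M, f m := fun a f =>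
    Fintype.sum_equiv (Equiv.mulLeft a) _ _ (fun _ => rfl)
  have act : ∀ (a m : M) (x : L), ρ a (ρ m x) = ρ ((a * m : M) : G) x := by
    intro a m x
    rw [Subgroup.coe_mul, map_mul, AlgEquiv.mul_apply]
  have hTa : ∀ a : M, ρ a T = T := by
    intro a
    rw [hT, map_sum]
    simp only [act]
    exact shift a (fun m => ρ (m : G) θ)
  have h1 : χ 1 = 0 := by
    have := hχ 1 M.one_mem 1 M.one_mem
    rw [mul_one] at this
    simpa using this
  refine ⟨-(∑ m : M, algebraMap k L (χ m) * ρ m θ) / T, fun a ha => ?_⟩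
  have e1 : ρ a (∑ m : M, algebraMap k L (χ m) * ρ m θ) =
      ∑ m : M, algebraMap k L (χ m) * ρ m θ - algebraMap k L (χ a) * T := by
    have e2 := shift ⟨a, ha⟩ (fun m : M => algebraMap k L (χ m) * ρ (m : G) θ)
    rw [map_sum]
    simp only [map_mul, AlgEquiv.commutes]
    have e3 : ∀ m : M, algebraMap k L (χ m) * ρ a (ρ (m : G) θ) =
        algebraMap k L (χ ((⟨a, ha⟩ * m : M) : G)) * ρ ((⟨a, ha⟩ * m : M) : G) θ -
          algebraMap k L (χ a) * ρ ((⟨a, ha⟩ * m : M) : G) θ := by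
      intro m
      have e4 := act ⟨a, ha⟩ m θ
      change ρ a (ρ (m : G) θ) = _ at e4
      rw [e4, Subgroup.coe_mul, hχ a ha m m.2, map_add]
      ring
    rw [Finset.sum_congr rfl (fun m _ => e3 m), Finset.sum_sub_distrib, ← Finset.mul_sum,
      shift ⟨a, ha⟩ (fun m : M => algebraMap k L (χ m) * ρ (m : G) θ),
      shift ⟨a, ha⟩ (fun m : M => ρ (m : G) θ), ← hT]
  have e5 := hTa ⟨a, ha⟩
  change ρ a T = T at e5
  rw [map_div₀, map_neg, e1, e5]
  field_simp
  ring

/-- the index of the kernel of a map to `ZMod p` divides `p` -/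
theorem card_dvd [Finite G] (p : ℕ) (M B : Subgroup G) (hBM : B ≤ M) (χ : G → ZMod p)
    (hχ : ∀ a ∈ M, ∀ b ∈ M, χ (a * b) = χ a + χ b) (hk : ∀ a ∈ M, χ a = 0 ↔ a ∈ B) :
    Nat.card M ∣ p * Nat.card B := by
  obtain ⟨f, hf⟩ : ∃ f : M →* Multiplicative (ZMod p), ∀ m : M, f m = Multiplicative.ofAdd (χ m) :=
    ⟨MonoidHom.mk' (fun m : M => Multiplicative.ofAdd (χ m)) (fun a b => by
      rw [Subgroup.coe_mul, hχ a a.2 b b.2, ofAdd_add]), fun _ => rfl⟩
  have h1 : Nat.card f.ker = Nat.card B := by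
    refine Nat.card_congr ⟨fun x => ⟨((x : M) : G), ?_⟩, fun x => ⟨⟨x, hBM x.2⟩, ?_⟩, ?_, ?_⟩
    · have hx := x.2
      rw [MonoidHom.mem_ker, hf] at hx
      exact (hk _ (x : M).2).1 (ofAdd_eq_one.1 hx)
    · rw [MonoidHom.mem_ker, hf]
      exact ofAdd_eq_one.2 ((hk _ (hBM x.2)).2 x.2)
    · intro x; rfl
    · intro x; rfl
  have h2 := Subgroup.card_eq_card_quotient_mul_card_subgroup f.ker
  have h3 : Nat.card (M ⧸ f.ker) = Nat.card f.range :=
    Nat.card_congr (QuotientGroup.quotientKerEquivRange f).toEquiv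
  rw [h1, h3] at h2
  rw [h2]
  refine Nat.mul_dvd_mul_right ?_ _
  have h4 := Subgroup.card_subgroup_dvd_card f.range
  have h5 : Nat.card (Multiplicative (ZMod p)) = p := Nat.card_zmod p
  rwa [h5] at h4

end VHYaux

open VHYaux in
theorem vhy_thm (hVAS : S_VAS) (hRMX : S_RMX) (hHBX : S_HBX) : S_VHY := by
  intro p k L G _ _ hchk _ _ _ _ ρ t P Δ M B χ hcv hMn hBn hBM hχ hk hne
  obtain ⟨hram, hfix, -, -, hinj⟩ := hVAS p k L G ρ t P Δ hcv
  have hp := hcv.pr
  haveI : Fact p.Prime := ⟨hp⟩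
  haveI : Fintype M := Fintype.ofFinite M
  have fp_add : ∀ a b : ZMod p, fp k (a + b) = fp k a + fp k b := fun a b => by
    unfold fp; exact map_add _ _ _
  have fp_ne : ∀ a : ZMod p, a ≠ 0 → fp k a ≠ 0 := fun a ha => by
    unfold fp
    exact (map_ne_zero_iff _ (RingHom.injective _)).2 ha
  have fp_zero : fp k (0 : ZMod p) = 0 := by unfold fp; exact map_zero _
  obtain ⟨y₀, hy₀⟩ := hil ρ hinj M (fun g => fp k (χ g))
    (fun a ha b hb => by rw [hχ a ha b hb, fp_add])
  obtain ⟨a₀, ha₀, hχa₀⟩ := hne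
  have hc₀ := fp_ne _ hχa₀
  have hmap : ∀ c : k, c ≠ 0 → algebraMap k L c ≠ 0 := fun c hc => by
    rwa [Ne, map_eq_zero]
  -- the order is negative
  have hneg : ∀ y : L, (∀ a ∈ M, ρ a y = y + algebraMap k L (fp k (χ a))) →
      y ≠ 0 ∧ P.ord y < 0 := by
    intro y hy
    have h0 := hy a₀ ha₀
    have hyn : y ≠ 0 := by
      intro h
      rw [h, map_zero, zero_add] at h0
      exact hmap _ hc₀ h0.symm
    refine ⟨hyn, ?_⟩
    by_contra hge
    rw [not_lt] at hge
    obtain ⟨c, hc⟩ := P.residue y hyn hge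
    rcases hc with hc | hc
    · rw [hc, AlgEquiv.commutes] at h0
      exact hmap _ hc₀ (by linear_combination -h0)
    · have h1 : P.Ge (y - algebraMap k L c) 1 := Or.inr hc
      have h2 : P.Ge (ρ a₀ (y - algebraMap k L c)) 1 := (hfix a₀).ge h1
      have h3 := P.ge_sub h2 h1
      have h4 : ρ a₀ (y - algebraMap k L c) - (y - algebraMap k L c) =
          algebraMap k L (fp k (χ a₀)) := by
        rw [map_sub, AlgEquiv.commutes, h0]
        ring
      rw [h4] at h3
      have h5 := h3.resolve_left (hmap _ hc₀)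
      rw [P.ord_const _ hc₀] at h5
      omega
  -- take the greatest order
  obtain ⟨n, ⟨y, hy, hyn⟩, hmax⟩ := Int.exists_greatest_of_bdd
    (P := fun n : ℤ => ∃ y : L, (∀ a ∈ M, ρ a y = y + algebraMap k L (fp k (χ a))) ∧ P.ord y = n)
    ⟨0, fun z ⟨y, hy, hz⟩ => by have := (hneg y hy).2; omega⟩ ⟨P.ord y₀, y₀, hy₀, rfl⟩
  obtain ⟨hy0, hylt⟩ := hneg y hy
  have hyB : ∀ b ∈ B, ρ b y = y := by
    intro b hb
    have hbM := hBM hb
    rw [hy b hbM, (hk b hbM).2 hb, fp_zero, map_zero, add_zero]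
  have htot := tot_thm k L G P ρ B hinj (fun n _ => hfix n) y hy0 hyB
  -- `|M|` does not divide the order
  have hMdvd : ¬ (Nat.card M : ℤ) ∣ P.ord y := by
    rintro ⟨m, hm⟩
    obtain ⟨w, hw0, hwM, hwo⟩ := hRMX k L G P ρ M M (fun g => ⟨fun h => ⟨h, hfix g⟩, fun h => h.1⟩)
    have hwm0 : w ^ m ≠ 0 := zpow_ne_zero _ hw0
    have hwmo : P.ord (w ^ m) = P.ord y := by rw [P.ord_zpow hw0, hwo, hm]; ring
    have hq0 : y / w ^ m ≠ 0 := div_ne_zero hy0 hwm0
    have hqo : P.ord (y / w ^ m) = 0 := by rw [P.ord_div hy0 hwm0, hwmo]; ring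
    have hwmM : ∀ a ∈ M, ρ a (w ^ m) = w ^ m := fun a ha => by rw [map_zpow₀, hwM a ha]
    obtain ⟨c, hc⟩ := P.residue (y / w ^ m) hq0 hqo.ge
    rcases hc with hc | hc
    · rw [div_eq_iff hwm0] at hc
      have h0 := hy a₀ ha₀
      rw [hc, map_mul, AlgEquiv.commutes, hwmM a₀ ha₀] at h0
      exact hmap _ hc₀ (by linear_combination -h0)
    · have h1 : ∀ a ∈ M, ρ a (y - algebraMap k L c * w ^ m) =
          (y - algebraMap k L c * w ^ m) + algebraMap k L (fp k (χ a)) := by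
        intro a ha
        rw [map_sub, map_mul, AlgEquiv.commutes, hwmM a ha, hy a ha]
        ring
      have h2 := hmax _ ⟨_, h1, rfl⟩
      have h3 := hneg _ h1
      have h4 : y - algebraMap k L c * w ^ m = w ^ m * (y / w ^ m - algebraMap k L c) := by
        field_simp
      have h5 : y / w ^ m - algebraMap k L c ≠ 0 := by
        intro h
        rw [h4, h, mul_zero] at h3
        exact h3.1 rfl
      rw [h4, P.ord_mul _ _ hwm0 h5, hwmo, hyn] at h2
      omega
  have hcB : 0 < Nat.card B := Nat.card_pos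
  obtain ⟨v, hv⟩ := htot
  have hv0 : v < 0 := by
    by_contra h
    rw [not_lt] at h
    have : 0 ≤ (Nat.card B : ℤ) * v := mul_nonneg (by positivity) h
    omega
  obtain ⟨u, hu⟩ : ∃ u : ℕ, (u : ℤ) = -v := ⟨(-v).toNat, Int.toNat_of_nonneg (by omega)⟩
  have hord : P.ord y = -((Nat.card B * u : ℕ) : ℤ) := by
    rw [hv]; push_cast; rw [hu]; ring
  have hpu : ¬ p ∣ u := by
    rintro ⟨r, hr⟩
    apply hMdvd
    have h1 : Nat.card M ∣ Nat.card B * u := by
      rw [hr, ← mul_assoc, mul_comm (Nat.card B) p]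
      exact Dvd.dvd.mul_right (card_dvd p M B hBM χ hχ hk) r
    rw [hord]
    exact (Int.natCast_dvd_natCast.2 h1).neg_right
  have hu1 : 1 ≤ u := by omega
  refine ⟨y, u, hyB, hy, hord, hpu, hu1, fun g hg hgB => ?_⟩
  have hχg : χ g ≠ 0 := fun h => hgB ((hk g hg).1 h)
  exact hHBX p k L G P ρ B M g y (fp k (χ g)) u hp hcv.ch hinj hBM
    (fun g _ => by rw [hram]; trivial)
    (fun g _ n hn => hBn.conj_mem n hn g) hg hgB hyB hy0 (fp_ne _ hχg) (hy g hg)
    (by rw [hord, mul_comm]) hpu hu1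

end Pool.CND
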